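import Mathlib

/-!
# The lines through a point
-/

set_option autoImplicit false

namespace Pool.Agent.Dirac86.Gen

open Classical in
/-- `pencil S p` : the set of all traces on `S ∖ {p}` of the lines through `p` and a further point
of `S`. -/
noncomputable def pencil (S : Finset (EuclideanSpace ℝ (Fin 2))) (p : EuclideanSpace ℝ (Fin 2)) :
    Finset (Finset (EuclideanSpace ℝ (Fin 2))) :=
  (S.erase p).image (fun x => (S.erase p).filter
    (fun y => y ∈ affineSpan ℝ ({p, x} : Set (EuclideanSpace ℝ (Fin 2)))))

end Pool.Agent.Dirac86.Gen
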