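import Mathlib
import Pool.Agent.Dirac80.Defs
import Pool.Agent.Dirac80.Parity
import Pool.Agent.Dirac80.EvenC
import Pool.Agent.Dirac86.Gen.Sum

/-!
# Ordinary lines and the lines with an even number of points
-/

set_option autoImplicit false
set_option linter.unusedSectionVars false
open Finset Classical

namespace Pool.Agent.Dirac86.Gen

open Pool.Agent.Dirac80 (Lin Ln mem_Ln Pl area pl_ext exists_of_area collinear_of_area
  area_of_collinear connectingLines mem_connecting connecting_eq Col col_lin tr tr_card mem_tr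
  tr_connecting double_count ordinary_eq)
open Pool.Agent.Dirac80b


theorem all_case' {ι : Type*} [Fintype ι] [inst : DecidableEq ι] {C : ι → ι → ι → Prop} {O : ι}
    {u v : ι → ℝ} (ch : Chart C O u v)
    (hcol : ∃ i j, i ≠ O ∧ j ≠ O ∧ u i ≠ u j) (lam : ℕ → ℕ) (hlam : Adm (Fintype.card ι) lam) :
    Fintype.card ι - 1 ≤ ∑ i ∈ univ.erase O, ebad C i (off O u i)
      + ∑ c ∈ (univ.erase O).image u, lam (colm O u c).card := by
  have h := all_case ch hcol lam hlam
  have e : inst = fun a b => propDecidable (a = b) := Subsingleton.elim _ _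
  subst e
  exact h

section plane

variable (S : Finset Pl)

/-- for a point `O` : the lines with an even number of points -/
theorem star_gen (hS : ¬ Collinear ℝ (S : Set Pl)) {o : Pl} (ho : o ∈ S) (lam : ℕ → ℕ)
    (hlam : Adm S.card lam) :
    S.card - 1 ≤ ∑ T ∈ (connectingLines S).filter (fun T => Even T.card ∧ o ∉ T), T.card +
      ∑ T ∈ (connectingLines S).filter (fun T => o ∈ T),
        lam (T.card - 1) := by
  obtain ⟨F, hF⟩ : ∃ F, F = (connectingLines S).filter (fun T => Even T.card ∧ o ∉ T) := ⟨_, rfl⟩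
  set O : {p // p ∈ S} := ⟨o, ho⟩ with hO
  obtain ⟨u, v, Y, ch, -, -, -, -⟩ := exists_chart S O
  have hcard : Fintype.card {p // p ∈ S} = S.card := by simp
  have hmain := all_case' ch (by
    by_contra hcon
    push Not at hcon
    apply hS
    by_cases hex : ∃ q ∈ S, q ≠ o
    · obtain ⟨q, hq, hqo⟩ := hex
      refine collinear_of_area (Ne.symm hqo) _ (by exact_mod_cast ho) ?_
      intro r hr
      have hr' : r ∈ S := by exact_mod_cast hr
      by_cases hro : r = o
      · rw [hro]; unfold area; ring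
      · have hq' : (⟨q, hq⟩ : {p // p ∈ S}) ≠ O := fun h => hqo (congrArg Subtype.val h)
        have hr'' : (⟨r, hr'⟩ : {p // p ∈ S}) ≠ O := fun h => hro (congrArg Subtype.val h)
        exact (ch.hO ⟨q, hq⟩ ⟨r, hr'⟩ hq' hr'').mpr (hcon _ _ hq' hr'')
    · push Not at hex
      have : (S : Set Pl) ⊆ {o} := by
        intro x hx
        exact hex x (by exact_mod_cast hx)
      exact (collinear_singleton ℝ o).subset this) lam (by rw [hcard]; exact hlam)
  rw [hcard] at hmain
  -- points different from `O`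
  have e1 : ∀ i ∈ (univ : Finset {p // p ∈ S}).erase O, ebad (Col S) i (off O u i) ≤
      (F.filter (fun T => i.1 ∈ T)).card := by
    intro i hi
    rw [mem_erase] at hi
    refine ebad_le S i _ F ?_
    intro k hk he
    rw [mem_off] at hk
    have hik : i ≠ k := fun h => hk.2 (by rw [h])
    rw [hF, mem_filter]
    refine ⟨tr_connecting S i k hik, by rw [tr_card]; exact he, fun h => ?_⟩
    rw [mem_tr] at h
    obtain ⟨_, h⟩ := h
    rw [mem_Ln] at h
    exact ch.ne_O hi.1 hk.1 hk.2 h rfl
  have e3 := Finset.sum_le_sum e1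
  have e4 : ∑ i ∈ (univ : Finset {p // p ∈ S}).erase O, (F.filter (fun T => i.1 ∈ T)).card ≤
      ∑ i : {p // p ∈ S}, (F.filter (fun T => i.1 ∈ T)).card :=
    Finset.sum_le_sum_of_subset (erase_subset _ _)
  have e6 := double_count S F (fun T hT => by
    rw [hF] at hT; exact (mem_connecting.mp (mem_filter.mp hT).1).1)
  rw [← Finset.sum_coe_sort S (fun p => (F.filter (fun T => p ∈ T)).card)] at e6
  -- the lines through `O`
  obtain ⟨U, hU⟩ : ∃ U, U = ((univ : Finset {p // p ∈ S}).erase O).image u := ⟨_, rfl⟩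
  have hex : ∀ c, ∃ T : Finset Pl, c ∈ U → (T ∈ connectingLines S ∧ o ∈ T ∧
      T.card = (colm O u c).card + 1 ∧ ∃ i : {p // p ∈ S}, i ≠ O ∧ u i = c ∧ i.1 ∈ T ∧
      ∀ j : {p // p ∈ S}, j ≠ O → j.1 ∈ T → u j = c) := by
    intro c
    by_cases hc : c ∈ U
    · rw [hU, mem_image] at hc
      obtain ⟨i, hi, hic⟩ := hc
      rw [mem_erase] at hi
      refine ⟨tr S (Ln (Col S) O i), fun _ => ⟨tr_connecting S O i hi.1.symm,
        mem_tr_self S O i, ?_, i, hi.1, hic, ?_, ?_⟩⟩
      · rw [tr_card, card_Ln ch hi.1, hic]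
      · rw [mem_tr]; exact ⟨i.2, (col_lin S).right_mem _ _⟩
      · intro j hj hjT
        rw [mem_tr] at hjT
        obtain ⟨_, h⟩ := hjT
        rw [mem_Ln, ch.hO i j hi.1 hj] at h
        rw [← h, hic]
    · exact ⟨∅, fun h => absurd h hc⟩
  choose T hT using hex
  have hinj : Set.InjOn T (U : Set ℝ) := by
    intro c hc d hd hcd
    obtain ⟨_, _, _, i, hi, hic, hiT, _⟩ := hT c (by exact_mod_cast hc)
    obtain ⟨_, _, _, _, _, _, _, hd'⟩ := hT d (by exact_mod_cast hd)
    rw [hcd] at hiT
    rw [← hic, hd' i hi hiT]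
  have e7 : ∑ c ∈ U, lam (colm O u c).card ≤
      ∑ T ∈ (connectingLines S).filter (fun T => o ∈ T), lam (T.card - 1) := by
    have h1 : ∑ c ∈ U, lam (colm O u c).card =
        ∑ T' ∈ U.image T, lam (T'.card - 1) := by
      rw [Finset.sum_image (by exact hinj)]
      refine Finset.sum_congr rfl (fun c hc => ?_)
      obtain ⟨_, _, h3, _⟩ := hT c hc
      rw [h3, Nat.add_sub_cancel]
    rw [h1]
    refine Finset.sum_le_sum_of_subset ?_
    intro T' hT'
    rw [mem_image] at hT'
    obtain ⟨c, hc, rfl⟩ := hT'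
    obtain ⟨h1, h2, _⟩ := hT c hc
    exact mem_filter.mpr ⟨h1, h2⟩
  rw [← hF]
  rw [hU] at e7
  refine hmain.trans (add_le_add ?_ e7)
  rw [← e6]
  exact e3.trans e4

end plane

end Pool.Agent.Dirac86.Gen
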