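import Mathlib
import Pool.Agent.Dirac80.Defs
import Pool.Agent.Dirac80.Parity
import Pool.Agent.Dirac80.EvenC
import Pool.Agent.Dirac86.Gen.Defs
import Pool.Agent.Dirac86.Gen.Plane

/-!
# The inequality at a point of the plane
-/

set_option autoImplicit false
open Finset Classical

namespace Pool.Agent.Dirac86.Gen

open Pool.Agent.Dirac80 (connectingLines mem_connecting connecting_eq Pl area area_of_span
  exists_of_area ordinary_eq)

theorem span_iff {p x r : Pl} (h : p ≠ x) :
    r ∈ affineSpan ℝ ({p, x} : Set Pl) ↔ area p x r = 0 := by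
  constructor
  · exact area_of_span
  · intro h0
    obtain ⟨t, ht⟩ := exists_of_area h h0
    rw [mem_affineSpan_pair_iff_exists_lineMap_eq]
    exact ⟨t, by rw [ht, AffineMap.lineMap_apply]; rfl⟩

variable (S : Finset Pl) (p : Pl)

theorem conn_insert (T : Finset Pl) : (T ∈ connectingLines (insert p S) ∧ p ∉ T) ↔
    (T ∈ connectingLines S ∧ p ∉ affineSpan ℝ (T : Set Pl)) := by
  rw [mem_connecting, mem_connecting]
  constructor
  · rintro ⟨⟨h1, h2, h3, h4⟩, hp⟩
    refine ⟨⟨fun x hx => ?_, h2, h3, fun r hr hr' => h4 r (mem_insert_of_mem hr) hr'⟩,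
      fun h => hp (h4 p (mem_insert_self _ _) h)⟩
    rcases mem_insert.mp (h1 hx) with h | h
    · exact absurd (h ▸ hx) hp
    · exact h
  · rintro ⟨⟨h1, h2, h3, h4⟩, hp⟩
    refine ⟨⟨fun x hx => mem_insert_of_mem (h1 hx), h2, h3, fun r hr hr' => ?_⟩,
      fun h => hp (subset_affineSpan ℝ _ (by exact_mod_cast h))⟩
    rcases mem_insert.mp hr with h | h
    · exact absurd (h ▸ hr') hp
    · exact h4 r h hr'

theorem erase_mem_pencil {T : Finset Pl} (hT : T ∈ connectingLines (insert p S)) (hp : p ∈ T) :
    T.erase p ∈ pencil S p := by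
  have h2 := (mem_connecting.mp hT).2.1
  obtain ⟨x, hx⟩ : (T.erase p).Nonempty := card_pos.mp (by rw [card_erase_of_mem hp]; omega)
  rw [mem_erase] at hx
  have e := connecting_eq hT hp hx.2 hx.1.symm
  have hxS : x ∈ S.erase p := by
    rw [mem_erase]
    rcases mem_insert.mp ((mem_connecting.mp hT).1 hx.2) with h | h
    · exact absurd h hx.1
    · exact ⟨hx.1, h⟩
  unfold pencil
  rw [mem_image]
  refine ⟨x, hxS, ?_⟩
  ext y
  rw [mem_filter, mem_erase, mem_erase, span_iff hx.1.symm]
  constructor
  · rintro ⟨⟨h3, h4⟩, h5⟩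
    refine ⟨h3, ?_⟩
    rw [e, mem_filter]
    exact ⟨mem_insert_of_mem h4, h5⟩
  · rintro ⟨h3, h4⟩
    rw [e, mem_filter] at h4
    refine ⟨⟨h3, ?_⟩, h4.2⟩
    rcases mem_insert.mp h4.1 with h | h
    · exact absurd h h3
    · exact h

theorem sum_pencil (lam : ℕ → ℕ) :
    ∑ T ∈ (connectingLines (insert p S)).filter (fun T => p ∈ T), lam (T.card - 1) ≤
      ∑ R ∈ pencil S p, lam R.card := by
  have hinj : Set.InjOn (fun T : Finset Pl => T.erase p)
      ((connectingLines (insert p S)).filter (fun T => p ∈ T) : Set (Finset Pl)) := by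
    intro T hT T' hT' h
    have h1 : p ∈ T := (mem_filter.mp (mem_coe.mp hT)).2
    have h2 : p ∈ T' := (mem_filter.mp (mem_coe.mp hT')).2
    have h3 : T.erase p = T'.erase p := h
    rw [← insert_erase h1, ← insert_erase h2, h3]
  have h1 : ∑ T ∈ (connectingLines (insert p S)).filter (fun T => p ∈ T), lam (T.card - 1) =
      ∑ R ∈ ((connectingLines (insert p S)).filter (fun T => p ∈ T)).image
        (fun T : Finset Pl => T.erase p), lam R.card := by
    rw [sum_image hinj]
    refine sum_congr rfl (fun T hT => ?_)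
    rw [card_erase_of_mem (mem_filter.mp hT).2]
  rw [h1]
  refine sum_le_sum_of_subset ?_
  intro R hR
  rw [mem_image] at hR
  obtain ⟨T, hT, rfl⟩ := hR
  rw [mem_filter] at hT
  exact erase_mem_pencil S p hT.1 hT.2

theorem sum_off :
    ∑ T ∈ (connectingLines (insert p S)).filter (fun T => Even T.card ∧ p ∉ T), T.card +
      2 * ((connectingLines S).filter
        (fun T : Finset Pl => T.card = 2 ∧ p ∈ affineSpan ℝ (T : Set Pl))).card =
    2 * {T : Finset Pl | T ⊆ S ∧ T.card = 2 ∧
          ∀ r ∈ S, r ∈ affineSpan ℝ (T : Set Pl) → r ∈ T}.ncard +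
      ∑ T ∈ (connectingLines S).filter
        (fun T : Finset Pl => 4 ≤ T.card ∧ Even T.card ∧ p ∉ affineSpan ℝ (T : Set Pl)), T.card := by
  have e1 : (connectingLines (insert p S)).filter (fun T => Even T.card ∧ p ∉ T) =
      (connectingLines S).filter
        (fun T : Finset Pl => Even T.card ∧ p ∉ affineSpan ℝ (T : Set Pl)) := by
    ext T
    rw [mem_filter, mem_filter]
    have := conn_insert S p T
    tauto
  rw [e1, ordinary_eq, card_filter, card_filter, mul_sum, mul_sum, sum_filter, sum_filter,
    ← sum_add_distrib, ← sum_add_distrib]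
  refine sum_congr rfl (fun T hT => ?_)
  have h2 := (mem_connecting.mp hT).2.1
  by_cases hp : p ∈ affineSpan ℝ (T : Set Pl)
  · by_cases h3 : T.card = 2
    · simp [hp, h3]
    · simp [hp, h3]
  · by_cases h3 : T.card = 2
    · simp [hp, h3]
    · by_cases h4 : Even T.card
      · have h5 : 4 ≤ T.card := by
          obtain ⟨a, ha⟩ := h4
          omega
        simp [hp, h3, h4, h5]
      · simp [hp, h3, h4]

/-- the inequality at a point of the plane -/
theorem point_ineq (hS : ¬ Collinear ℝ (S : Set Pl)) :
    (S.erase p).card + 2 * ((connectingLines S).filter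
        (fun T : Finset Pl => T.card = 2 ∧ p ∈ affineSpan ℝ (T : Set Pl))).card ≤
      2 * {T : Finset Pl | T ⊆ S ∧ T.card = 2 ∧
          ∀ r ∈ S, r ∈ affineSpan ℝ (T : Set Pl) → r ∈ T}.ncard +
      ∑ T ∈ (connectingLines S).filter
        (fun T : Finset Pl => 4 ≤ T.card ∧ Even T.card ∧ p ∉ affineSpan ℝ (T : Set Pl)), T.card +
      (if Even (S.erase p).card then
        2 * min ((pencil S p).filter (fun R => R.card = 1)).card
          ((pencil S p).filter (fun R => Even R.card)).card
        else ((pencil S p).filter (fun R => Odd R.card)).card) := by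
  have hS' : ¬ Collinear ℝ ((insert p S : Finset Pl) : Set Pl) := fun h =>
    hS (h.subset (by intro x hx; exact_mod_cast mem_insert_of_mem (by exact_mod_cast hx)))
  have hc : (S.erase p).card = (insert p S).card - 1 := by
    have : (insert p S).erase p = S.erase p := by
      ext x
      rw [mem_erase, mem_erase, mem_insert]
      tauto
    rw [← this, card_erase_of_mem (mem_insert_self _ _)]
  have hpos : 1 ≤ (insert p S).card := card_pos.mpr ⟨p, mem_insert_self _ _⟩
  have key : ∀ lam : ℕ → ℕ, Adm (insert p S).card lam →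
      (S.erase p).card + 2 * ((connectingLines S).filter
        (fun T : Finset Pl => T.card = 2 ∧ p ∈ affineSpan ℝ (T : Set Pl))).card ≤
      2 * {T : Finset Pl | T ⊆ S ∧ T.card = 2 ∧
          ∀ r ∈ S, r ∈ affineSpan ℝ (T : Set Pl) → r ∈ T}.ncard +
      ∑ T ∈ (connectingLines S).filter
        (fun T : Finset Pl => 4 ≤ T.card ∧ Even T.card ∧ p ∉ affineSpan ℝ (T : Set Pl)), T.card +
      ∑ R ∈ pencil S p, lam R.card := by
    intro lam hlam
    have h1 := star_gen (insert p S) hS' (mem_insert_self p S) lam hlam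
    have h2 := sum_pencil S p lam
    have h3 := sum_off S p
    rw [← hc] at h1
    omega
  by_cases he : Even (S.erase p).card
  · rw [if_pos he]
    have hodd : ¬ Even (insert p S).card := by
      obtain ⟨a, ha⟩ := he
      rintro ⟨b, hb⟩
      omega
    have k1 := key (fun s => if s = 1 then 2 else 0)
      ⟨fun h => absurd h hodd, fun _ s _ _ => by simp⟩
    have k2 := key (fun s => if Even s then 2 else 0)
      ⟨fun h => absurd h hodd, fun _ s hs _ => by simp [hs]⟩
    have e1 : ∑ R ∈ pencil S p, (if R.card = 1 then 2 else 0) =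
        2 * ((pencil S p).filter (fun R => R.card = 1)).card := by
      rw [← sum_filter, sum_const, smul_eq_mul, mul_comm]
    have e2 : ∑ R ∈ pencil S p, (if Even R.card then 2 else 0) =
        2 * ((pencil S p).filter (fun R => Even R.card)).card := by
      rw [← sum_filter, sum_const, smul_eq_mul, mul_comm]
    simp only [e1] at k1
    simp only [e2] at k2
    rcases le_total ((pencil S p).filter (fun R => R.card = 1)).card
      ((pencil S p).filter (fun R => Even R.card)).card with h | h
    · rw [min_eq_left h]; exact k1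
    · rw [min_eq_right h]; exact k2
  · rw [if_neg he]
    have hev : ¬ Odd (insert p S).card := by
      rintro ⟨b, hb⟩
      exact he ⟨b, by omega⟩
    have k1 := key (fun s => if Odd s then 1 else 0)
      ⟨fun _ s hs => by simp [hs], fun h => absurd h hev⟩
    have e1 : ∑ R ∈ pencil S p, (if Odd R.card then 1 else 0) =
        ((pencil S p).filter (fun R => Odd R.card)).card := by
      rw [card_filter]
    simp only [e1] at k1
    exact k1

end Pool.Agent.Dirac86.Gen
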